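import Pool.Agent.Y760.ST.Stm3
import Pool.Agent.Y109.ST.ZCore

/-!
Project ST: quantitative independence of the word functions (helper93; adapted from the file C of
the project WD).
-/

set_option autoImplicit false

namespace Pool.Agent.Y93.ST

open Finset Pool.Agent.TH507.WD Pool.Agent.Y760.ST

/-- the smallest elements of a finite set -/
lemma split (P : Finset ℕ) (k : ℕ) (hk : k ≤ P.card) :
    ∃ P1 P2 : Finset ℕ, P1 ⊆ P ∧ P2 ⊆ P ∧ P1.card = k ∧ P2.card = P.card - k ∧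
      ∀ q ∈ P1, ∀ p ∈ P2, q < p := by
  classical
  set e := P.orderEmbOfFin rfl with he
  set P1 : Finset ℕ := (univ : Finset (Fin k)).image (fun j => e (Fin.castLE hk j)) with hP1
  have h1 : P1 ⊆ P := by
    intro q hq
    obtain ⟨j, -, rfl⟩ := mem_image.1 hq
    exact orderEmbOfFin_mem P rfl _
  have h2 : P1.card = k := by
    rw [hP1, card_image_of_injective, card_univ, Fintype.card_fin]
    intro a b hab
    exact Fin.castLE_injective hk (e.injective hab)
  refine ⟨P1, P \ P1, h1, sdiff_subset, h2, by rw [card_sdiff_of_subset h1, h2], ?_⟩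
  intro q hq p hp
  rw [mem_sdiff] at hp
  obtain ⟨j, -, rfl⟩ := mem_image.1 hq
  have h3 : p ∈ Set.range e := by
    rw [he, range_orderEmbOfFin]
    exact hp.1
  obtain ⟨i, rfl⟩ := h3
  apply e.strictMono
  by_contra hlt
  apply hp.2
  rw [not_lt] at hlt
  have h4 : (i : ℕ) < k := lt_of_le_of_lt (Fin.le_iff_val_le_val.1 hlt) j.2
  exact mem_image.2 ⟨⟨i, h4⟩, mem_univ _, rfl⟩

lemma vander (M : ℕ) (d : Fin (M + 1) → ℚ) (P : Finset ℕ)
    (hc : M + 1 ≤ P.card) (h : ∀ p ∈ P, ∑ i : Fin (M + 1), d i / (p : ℚ) ^ (i : ℕ) = 0) :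
    d = 0 := by
  classical
  set D : Polynomial ℚ := ∑ i : Fin (M + 1), Polynomial.C (d i) * Polynomial.X ^ (i : ℕ) with hD
  have h1 : D = 0 := by
    refine Polynomial.eq_zero_of_natDegree_lt_card_of_eval_eq_zero' D
      (P.image fun p : ℕ => (((p : ℕ) : ℚ))⁻¹) ?_ ?_
    · intro z hz
      obtain ⟨p, hp, rfl⟩ := mem_image.1 hz
      rw [hD, Polynomial.eval_finsetSum, ← h p hp]
      refine sum_congr rfl fun i _ => ?_
      rw [Polynomial.eval_mul, Polynomial.eval_C, Polynomial.eval_pow, Polynomial.eval_X, inv_pow,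
        div_eq_mul_inv]
    · have h2 : D.natDegree ≤ M := by
        refine Polynomial.natDegree_sum_le_of_forall_le _ _ fun i _ => ?_
        exact (Polynomial.natDegree_C_mul_X_pow_le _ _).trans (by omega)
      have h3 : (P.image fun p : ℕ => (((p : ℕ) : ℚ))⁻¹).card = P.card :=
        card_image_of_injective _ fun a b hab => by
          have := inv_injective hab
          exact_mod_cast this
      omega
  funext i
  have h2 : D.coeff (i : ℕ) = d i := by
    rw [hD, Polynomial.finsetSum_coeff, sum_eq_single i]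
    · rw [Polynomial.coeff_C_mul, Polynomial.coeff_X_pow, if_pos rfl, mul_one]
    · intro j _ hj
      rw [Polynomial.coeff_C_mul, Polynomial.coeff_X_pow, if_neg, mul_zero]
      exact fun h => hj (Fin.ext h.symm)
    · intro h
      exact absurd (mem_univ i) h
  rw [← h2, h1, Polynomial.coeff_zero]
  rfl

lemma poly_ind' (M : ℕ) (a : List ℕ+) : ∀ (Λ : Finset (List (ℕ+ × ℕ)))
    (y : List (ℕ+ × ℕ) → ℚ) (P : Finset ℕ), (∀ p ∈ P, p.Prime) → (M + 1) * a.length ≤ P.card →
    (∀ w ∈ Λ, w.map Prod.fst = a) → (∀ w ∈ Λ, ∀ z ∈ w, z.2 ≤ M) →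
    (∀ Q : List (ℕ × ℕ+), (∀ q ∈ Q, q.1 ∈ P) →
      Q.Pairwise (fun q r => r.1 < q.1) → Q.map Prod.snd = a → ∑ w ∈ Λ, y w * Pool.Agent.TH507.WD.val w Q = 0) →
    ∀ w ∈ Λ, y w = 0 := by
  classical
  induction a with
  | nil =>
    intro Λ y P _ _ hΛ _ hQ w hw
    have h1 : ∀ v ∈ Λ, v = [] := fun v hv => List.map_eq_nil_iff.1 (hΛ v hv)
    have h2 := hQ [] (by simp) List.Pairwise.nil rfl
    rw [sum_eq_single []] at h2
    · rw [h1 w hw]
      simpa [Pool.Agent.TH507.WD.val] using h2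
    · intro v hv hne
      exact absurd (h1 v hv) hne
    · intro h
      rw [h1 w hw] at hw
      exact absurd hw h
  | cons e a ih =>
    intro Λ y P hPp hPc hΛ hM hQ w hw
    rw [List.length_cons, mul_add, mul_one] at hPc
    obtain ⟨P1, P2, hP1, hP2, hc1, hc2, hlt⟩ := split P ((M + 1) * a.length) (by omega)
    have hform : ∀ v ∈ Λ, ∃ l, v = (e, hb v) :: l ∧ l.map Prod.fst = a := by
      intro v hv
      have h1 := hΛ v hv
      rcases v with _ | ⟨x, l⟩
      · simp at h1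
      · rw [List.map_cons, List.cons_eq_cons] at h1
        refine ⟨l, ?_, h1.2⟩
        rw [hb_cons, ← h1.1]
    have hbM : ∀ v ∈ Λ, hb v ≤ M := by
      intro v hv
      obtain ⟨l, hl, -⟩ := hform v hv
      have h2 : (e, hb v) ∈ (e, hb v) :: l := List.mem_cons_self
      rw [← hl] at h2
      exact hM v hv (e, hb v) h2
    have hinj : ∀ i : ℕ, Function.Injective fun l : List (ℕ+ × ℕ) => (e, i) :: l := fun i l l' h =>
      (List.cons.inj h).2
    set Λi : ℕ → Finset (List (ℕ+ × ℕ)) := fun i =>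
      (Λ.filter fun v => hb v = i).preimage (fun l => (e, i) :: l) (hinj i).injOn with hΛi
    have hmem : ∀ i l, l ∈ Λi i ↔ (e, i) :: l ∈ Λ := by
      intro i l
      rw [hΛi]
      simp only [mem_preimage, mem_filter, hb_cons, and_true]
    have hsum : ∀ i (F : List (ℕ+ × ℕ) → ℚ),
        ∑ l ∈ Λi i, F ((e, i) :: l) = ∑ v ∈ Λ with hb v = i, F v := by
      intro i F
      refine sum_preimage (fun l => (e, i) :: l) _ (hinj i).injOn F ?_
      intro v hv hnr
      exfalso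
      rw [mem_filter] at hv
      obtain ⟨l, hl, -⟩ := hform v hv.1
      apply hnr
      rw [hv.2] at hl
      exact ⟨l, hl.symm⟩
    have key : ∀ i ≤ M, ∀ l ∈ Λi i, y ((e, i) :: l) = 0 := by
      intro i hi
      refine ih (Λi i) (fun l => y ((e, i) :: l)) P1 (fun p hp => hPp p (hP1 hp)) hc1.ge
        (fun l hl => ?_) (fun l hl z hz => hM _ ((hmem i l).1 hl) z (List.mem_cons_of_mem _ hz))
        fun Q h1 h3 h4 => ?_
      · have h5 := hΛ _ ((hmem i l).1 hl)
        rw [List.map_cons, List.cons_eq_cons] at h5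
        exact h5.2
      · set d : Fin (M + 1) → ℚ := fun i => ∑ l ∈ Λi i, y ((e, (i : ℕ)) :: l) * Pool.Agent.TH507.WD.val l Q with hd
        have hd0 : d = 0 := by
          refine vander M d P2 (by omega) fun p hp => ?_
          have h5 : ∀ q ∈ Q, q.1 < p := fun q hq => hlt _ (h1 q hq) p hp
          have h6 := hQ ((p, e) :: Q) (by
            intro q hq
            rcases List.mem_cons.1 hq with rfl | hq
            · exact hP2 hp
            · exact hP1 (h1 q hq)) (List.pairwise_cons.2 ⟨h5, h3⟩) (by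
            rw [List.map_cons, h4])
          rw [← sum_fiberwise_of_maps_to (t := range (M + 1)) (g := hb) (fun v hv => by
            rw [mem_range]
            exact Nat.lt_succ_of_le (hbM v hv)), sum_range] at h6
          rw [← h6]
          refine sum_congr rfl fun i _ => ?_
          rw [← hsum, hd]
          simp only
          rw [sum_div]
          refine sum_congr rfl fun l _ => ?_
          rw [val_cons, mul_div_assoc]
        exact congrFun hd0 ⟨i, by omega⟩
    obtain ⟨l, hl, -⟩ := hform w hw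
    rw [hl]
    refine key (hb w) (hbM w hw) l ((hmem _ _).2 ?_)
    rw [← hl]
    exact hw

theorem cf2_ind' (M R W : ℕ) (Λ : Finset (List (ℕ+ × ℕ))) (y : List (ℕ+ × ℕ) → ℚ) (P : Finset ℕ)
    (hP : ∀ p ∈ P, p.Prime) (hc : (M + 1) * R ≤ P.card) (hM : ∀ w ∈ Λ, ∀ z ∈ w, z.2 ≤ M)
    (hR : ∀ w ∈ Λ, w.length ≤ R) (hW : ∀ w ∈ Λ, asum w ≤ W)
    (h : ∀ Q : List (ℕ × ℕ+), Q ≠ [] → (∀ q ∈ Q, q.1 ∈ P) →
      Q.Pairwise (fun q r => r.1 < q.1) → esum Q ≤ W → ∑ v ∈ Λ, y v * cf 2 v (KQ Q) = 0) :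
    ∀ v ∈ Λ, v ≠ [] → y v = 0 := by
  classical
  by_contra hcon
  push Not at hcon
  obtain ⟨v1, hv1, hv1', hv1''⟩ := hcon
  obtain ⟨v0, hv0, hmin⟩ := exists_min_image (Λ.filter fun v => v ≠ [] ∧ y v ≠ 0) asum
    ⟨v1, mem_filter.2 ⟨hv1, hv1', hv1''⟩⟩
  rw [mem_filter] at hv0
  apply hv0.2.2
  refine poly_ind' M (v0.map Prod.fst) (Λ.filter fun v => v.map Prod.fst = v0.map Prod.fst) y
    P hP ?_ (fun w hw => (mem_filter.1 hw).2) (fun w hw => hM w (mem_filter.1 hw).1)
    (fun Q h2 h3 h4 => ?_) v0 (mem_filter.2 ⟨hv0.1, rfl⟩)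
  · rw [List.length_map]
    exact (Nat.mul_le_mul_left _ (hR v0 hv0.1)).trans hc
  have h1 : ∀ q ∈ Q, q.1.Prime := fun q hq => hP _ (h2 q hq)
  rcases Q with _ | ⟨q, Q⟩
  · exfalso
    rw [List.map_nil] at h4
    exact hv0.2.1 (List.map_eq_nil_iff.1 h4.symm)
  have hq := h1 q List.mem_cons_self
  have hK0 := KQ_ne h1
  have hqK : q.1 ≤ KQ (q :: Q) := by
    refine Nat.le_of_dvd (Nat.pos_of_ne_zero hK0) ?_
    rw [KQ_cons]
    exact dvd_mul_of_dvd_left (dvd_pow_self _ q.2.ne_zero) _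
  have h5 := h (q :: Q) (List.cons_ne_nil _ _) h2 h3 (by
    rw [esum_of_map h4]
    exact hW v0 hv0.1)
  rw [sum_filter]
  refine Eq.trans (sum_congr rfl fun v hv => ?_) h5
  by_cases hvn : v = []
  · subst hvn
    rw [if_neg, cf, T_nil, if_neg (by have := hq.two_le; omega), mul_zero]
    intro h6
    rw [List.map_nil] at h6
    exact hv0.2.1 (List.map_eq_nil_iff.1 h6.symm)
  by_cases hyv : y v = 0
  · rw [hyv, zero_mul, zero_mul, ite_self]
  · have h6 := hmin v (mem_filter.2 ⟨hv, hvn, hyv⟩)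
    rw [cf_eval v (q :: Q) h1 h3 (by rw [esum_of_map h4]; exact h6), h4]
    split_ifs
    · rfl
    · rw [mul_zero]

lemma asum_dropLast (w : List (ℕ+ × ℕ)) : asum w.dropLast ≤ asum w := by
  unfold asum
  exact ((List.dropLast_sublist w).map _).sum_le_sum (fun _ _ => Nat.zero_le _)

theorem cf1_ind' (M R W : ℕ) (Λ : Finset (List (ℕ+ × ℕ))) (hΛ : [] ∉ Λ)
    (x : List (ℕ+ × ℕ) → ℚ) (P : Finset ℕ)
    (hP : ∀ p ∈ P, p.Prime) (hc : (M + 1) * R ≤ P.card) (hM : ∀ w ∈ Λ, ∀ z ∈ w, z.2 ≤ M)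
    (hR : ∀ w ∈ Λ, w.length ≤ R) (hW : ∀ w ∈ Λ, asum w ≤ W)
    (h : ∀ Q : List (ℕ × ℕ+), Q ≠ [] → (∀ q ∈ Q, q.1 ∈ P) →
      Q.Pairwise (fun q r => r.1 < q.1) → esum Q ≤ W → ∑ w ∈ Λ, x w * cf 1 w (KQ Q) = 0) :
    ∀ w ∈ Λ, x w = 0 := by
  classical
  by_contra hcon
  push Not at hcon
  obtain ⟨w1, hw1, hw1'⟩ := hcon
  obtain ⟨w0, hw0, hmax⟩ := exists_max_image (Λ.filter fun v => x v ≠ 0) List.length
    ⟨w1, mem_filter.2 ⟨hw1, hw1'⟩⟩
  rw [mem_filter] at hw0
  have hne : w0 ≠ [] := fun h0 => hΛ (h0 ▸ hw0.1)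
  have hlen : ∀ w ∈ Λ, w.dropLast = w0 → x w = 0 := by
    intro w hw hd
    by_contra hx
    have h1 := hmax w (mem_filter.2 ⟨hw, hx⟩)
    have h2 : w.dropLast.length = w.length - 1 := List.length_dropLast
    rw [hd] at h2
    have h3 : w.length ≠ 0 := fun h4 => hΛ (List.length_eq_zero_iff.1 h4 ▸ hw)
    omega
  set y : List (ℕ+ × ℕ) → ℚ := fun v => (if v ∈ Λ then x v else 0) +
    ∑ w ∈ Λ with w.dropLast = v, x w with hy
  have h1 := cf2_ind' M R W (Λ ∪ Λ.image List.dropLast) y P hP hc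
    (fun w hw z hz => by
      rcases mem_union.1 hw with h1 | h1
      · exact hM w h1 z hz
      · obtain ⟨v, hv, rfl⟩ := mem_image.1 h1
        exact hM v hv z (List.mem_of_mem_dropLast hz))
    (fun w hw => by
      rcases mem_union.1 hw with h1 | h1
      · exact hR w h1
      · obtain ⟨v, hv, rfl⟩ := mem_image.1 h1
        have h2 : v.dropLast.length = v.length - 1 := List.length_dropLast
        have h3 := hR v hv
        omega)
    (fun w hw => by
      rcases mem_union.1 hw with h1 | h1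
      · exact hW w h1
      · obtain ⟨v, hv, rfl⟩ := mem_image.1 h1
        exact (asum_dropLast v).trans (hW v hv)) (by
    intro Q hQ0 hQP hQp hQW
    have hK : 1 ≤ KQ Q := Nat.one_le_iff_ne_zero.2 (KQ_ne fun q hq => hP _ (hQP q hq))
    rw [← h Q hQ0 hQP hQp hQW]
    set K := KQ Q
    have e1 : ∑ v ∈ Λ ∪ Λ.image List.dropLast, (if v ∈ Λ then x v else 0) * cf 2 v K =
        ∑ w ∈ Λ, x w * cf 2 w K := by
      simp only [ite_mul, zero_mul]
      rw [sum_ite_mem, union_inter_cancel_left]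
    have e2 : ∑ v ∈ Λ ∪ Λ.image List.dropLast, (∑ w ∈ Λ with w.dropLast = v, x w) * cf 2 v K =
        ∑ w ∈ Λ, x w * cf 2 w.dropLast K := by
      rw [← sum_fiberwise_of_maps_to (s := Λ) (t := Λ ∪ Λ.image List.dropLast)
        (g := List.dropLast) (fun w hw => mem_union_right _ (mem_image_of_mem _ hw))]
      refine sum_congr rfl fun v _ => ?_
      rw [sum_mul]
      refine sum_congr rfl fun w hw => ?_
      rw [(mem_filter.1 hw).2]
    simp only [hy, add_mul, sum_add_distrib]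
    rw [e1, e2, ← sum_add_distrib]
    refine sum_congr rfl fun w hw => ?_
    rw [cf_one w (fun h0 => hΛ (h0 ▸ hw)) K hK]
    ring) w0 (mem_union_left _ hw0.1) hne
  rw [hy] at h1
  simp only [hw0.1, if_true] at h1
  rw [sum_eq_zero fun w hw => hlen w (mem_filter.1 hw).1 (mem_filter.1 hw).2, add_zero] at h1
  exact hw0.2 h1

lemma KQ_le {Q : List (ℕ × ℕ+)} {B : ℕ} (h : ∀ q ∈ Q, q.1 ≤ B) : KQ Q ≤ B ^ esum Q := by
  induction Q with
  | nil => rw [KQ_nil, esum_nil, pow_zero]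
  | cons q Q ih =>
    rw [KQ_cons, esum_cons, pow_add]
    exact Nat.mul_le_mul (Nat.pow_le_pow_left (h q List.mem_cons_self) _)
      (ih fun r hr => h r (List.mem_cons_of_mem q hr))

/-- the parameters -/
lemma param (W r : ℕ) (c0 : ℝ) : ∃ T : ℝ, 0 < T ∧ ∀ s : ℝ, T ≤ s → ∃ m : ℕ,
    (W : ℝ) * (2 * m + r) ≤ s ∧ c0 * s < (m : ℝ) * (m + 1) * Real.log 2 := by
  set V : ℝ := (W : ℝ) + 1 with hV
  have hV1 : 1 ≤ V := by
    have : (0 : ℝ) ≤ W := Nat.cast_nonneg W
    linarith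
  have hr0 : (0 : ℝ) ≤ r := Nat.cast_nonneg r
  refine ⟨8 * V + 64 * V ^ 2 * (|c0| + 1) + 2 * r * V, by positivity, fun s hs => ?_⟩
  have hc0 : 0 ≤ |c0| := abs_nonneg c0
  have hA : 8 * V ≤ s := by
    have h1 : 0 ≤ 64 * V ^ 2 * (|c0| + 1) := by positivity
    have h2 : 0 ≤ 2 * (r : ℝ) * V := by positivity
    linarith
  have hB : 64 * V ^ 2 * (|c0| + 1) < s := by
    have h1 : 0 < 8 * V := by positivity
    have h2 : 0 ≤ 2 * (r : ℝ) * V := by positivity
    linarith
  have hC : 2 * r * V ≤ s := by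
    have h1 : 0 ≤ 64 * V ^ 2 * (|c0| + 1) := by positivity
    linarith
  have hs0 : 0 < s := by linarith
  refine ⟨⌊s / (4 * V)⌋₊, ?_, ?_⟩
  · have h1 : (⌊s / (4 * V)⌋₊ : ℝ) ≤ s / (4 * V) := Nat.floor_le (by positivity)
    rw [le_div_iff₀ (by positivity)] at h1
    have h2 : (W : ℝ) ≤ V := by rw [hV]; linarith
    have h3 : (0 : ℝ) ≤ ⌊s / (4 * V)⌋₊ := Nat.cast_nonneg _
    have h4 : (W : ℝ) * (2 * ⌊s / (4 * V)⌋₊ + r) ≤ V * (2 * ⌊s / (4 * V)⌋₊ + r) :=
      mul_le_mul_of_nonneg_right h2 (by positivity)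
    linarith
  · have h1 := Nat.lt_floor_add_one (s / (4 * V))
    set u : ℝ := s / (4 * V) with hu
    set m : ℝ := (⌊u⌋₊ : ℝ) with hm
    have h2 : 2 ≤ u := by
      rw [hu, le_div_iff₀ (by positivity)]
      linarith
    have h3 : u / 2 ≤ m := by linarith
    have h4 : (1 : ℝ) / 2 ≤ Real.log 2 := by
      have := Real.log_two_gt_d9
      linarith
    have h5 : s = 4 * V * u := by
      rw [hu]
      field_simp
    have h6 : 16 * V * (|c0| + 1) < u := by
      rw [hu, lt_div_iff₀ (by positivity)]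
      linarith
    have h7 : c0 * s ≤ |c0| * (4 * V * u) := by
      rw [← h5]
      exact mul_le_mul_of_nonneg_right (le_abs_self c0) hs0.le
    have h8 : |c0| * (4 * V * u) < u / 2 * u * (1 / 2) := by
      have h9 : |c0| * (16 * V) < u := by nlinarith
      nlinarith
    have h9 : u / 2 * u * (1 / 2) ≤ m * (m + 1) * Real.log 2 := by
      have h10 : u / 2 * u ≤ m * (m + 1) := mul_le_mul h3 h1.le (by linarith) (by linarith)
      exact mul_le_mul h10 h4 (by norm_num) (by nlinarith)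
    linarith

theorem nvw : NvwStmt := by
  classical
  intro Λ c0
  obtain ⟨M, hM⟩ : ∃ M : ℕ, ∀ w ∈ Λ, ∀ z ∈ w, z.2 ≤ M := by
    refine ⟨Λ.sup fun w => (w.map Prod.snd).sum, fun w hw z hz => ?_⟩
    refine (List.single_le_sum (l := w.map Prod.snd) (fun _ _ => Nat.zero_le _) z.2
      (List.mem_map_of_mem hz)).trans ?_
    exact le_sup (f := fun w : List (ℕ+ × ℕ) => (w.map Prod.snd).sum) hw
  set R : ℕ := Λ.sup List.length with hR
  set W : ℕ := Λ.sup asum with hW
  obtain ⟨T, hT, hTs⟩ := param W ((M + 1) * R) c0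
  refine ⟨T, hT, ?_⟩
  intro s hs h hh hlog x hx
  obtain ⟨m, hm1, hm2⟩ := hTs s hs
  have hs0 : 0 < s := lt_of_lt_of_le hT hs
  have hhm : h < (2 ^ m) ^ (m + 1) := by
    have h1 : Real.log h < Real.log (((2 ^ m) ^ (m + 1) : ℕ) : ℝ) := by
      push_cast
      rw [Real.log_pow, Real.log_pow]
      push_cast
      linarith
    have h2 := (Real.log_lt_log_iff (by exact_mod_cast hh) (by positivity)).1 h1
    exact_mod_cast h2
  obtain ⟨q, hq, hqq⟩ := Pool.Agent.Y109.ST.primes ((M + 1) * R) m h hh hhm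
  by_contra hcon
  push Not at hcon
  set P : Finset ℕ := univ.image q with hP
  have hPp : ∀ p ∈ P, p.Prime := by
    intro p hp
    obtain ⟨t, -, rfl⟩ := mem_image.1 hp
    exact (hqq t).1
  have hPc : P.card = (M + 1) * R := by
    rw [hP, card_image_of_injective _ hq, card_univ, Fintype.card_fin]
  have h0 : ∀ w ∈ Λ.erase [], x w = 0 := by
    refine cf1_ind' M R W (Λ.erase []) (notMem_erase _ _) x P hPp hPc.ge
      (fun w hw => hM w (mem_of_mem_erase hw))
      (fun w hw => le_sup (f := List.length) (mem_of_mem_erase hw))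
      (fun w hw => le_sup (f := asum) (mem_of_mem_erase hw)) ?_
    intro Q hQ0 hQP hQp hQW
    have h1 : ∀ q ∈ Q, q.1.Prime := fun q hq => hPp _ (hQP q hq)
    have hK0 := KQ_ne h1
    have hK1 : KQ Q ≠ 1 := by
      rcases Q with _ | ⟨r, Q⟩
      · exact absurd rfl hQ0
      · have hr := (h1 r List.mem_cons_self).two_le
        have hqK : r.1 ≤ KQ (r :: Q) := by
          refine Nat.le_of_dvd (Nat.pos_of_ne_zero hK0) ?_
          rw [KQ_cons]
          exact dvd_mul_of_dvd_left (dvd_pow_self _ r.2.ne_zero) _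
        omega
    have hKs : Real.log (KQ Q) ≤ s := by
      have h2 : KQ Q ≤ (2 ^ (2 * m + (M + 1) * R)) ^ W := by
        refine (KQ_le (B := 2 ^ (2 * m + (M + 1) * R)) fun q hq => ?_).trans
          (Nat.pow_le_pow_right (by positivity) hQW)
        obtain ⟨t, -, ht⟩ := mem_image.1 (hQP q hq)
        rw [← ht]
        exact (hqq t).2.2.1
      have h3 : Real.log (KQ Q) ≤ Real.log (((2 ^ (2 * m + (M + 1) * R)) ^ W : ℕ) : ℝ) :=
        Real.log_le_log (by exact_mod_cast Nat.pos_of_ne_zero hK0) (by exact_mod_cast h2)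
      push_cast at h3
      rw [Real.log_pow, Real.log_pow] at h3
      have h4 : Real.log 2 ≤ 1 := by
        have := Real.log_two_lt_d9
        linarith
      push_cast at h3 hm1
      have h5 : (W : ℝ) * ((2 * (m : ℝ) + ((M : ℝ) + 1) * R) * Real.log 2) ≤
          (W : ℝ) * ((2 * (m : ℝ) + ((M : ℝ) + 1) * R) * 1) := by
        refine mul_le_mul_of_nonneg_left (mul_le_mul_of_nonneg_left h4 (by positivity))
          (Nat.cast_nonneg _)
      linarith
    have hcop : Nat.Coprime h (KQ Q) := by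
      rw [Nat.coprime_iff_gcd_eq_one]
      by_contra hg
      obtain ⟨r, hr, hrd⟩ := Nat.exists_prime_and_dvd hg
      obtain ⟨q', hq', hq'r⟩ := KQ_prime h1 hr (hrd.trans (Nat.gcd_dvd_right _ _))
      obtain ⟨t, -, ht⟩ := mem_image.1 (hQP q' hq')
      apply (hqq t).2.2.2
      rw [ht, hq'r]
      exact hrd.trans (Nat.gcd_dvd_left _ _)
    have h2 := hcon (KQ Q) (Nat.one_le_iff_ne_zero.2 hK0) hKs hcop
    rw [← h2]
    refine sum_subset (erase_subset _ _) fun w hw hw' => ?_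
    have h3 : w = [] := by
      by_contra h4
      exact hw' (mem_erase.2 ⟨h4, hw⟩)
    rw [h3, cf, T_nil, if_neg hK1, mul_zero]
  obtain ⟨w, hw, hxw⟩ := hx
  have hwn : w = [] := by
    by_contra h1
    exact hxw (h0 w (mem_erase.2 ⟨h1, hw⟩))
  subst hwn
  have h1 := hcon 1 le_rfl (by rw [Nat.cast_one, Real.log_one]; exact hs0.le)
    (Nat.coprime_one_right h)
  rw [sum_eq_single []] at h1
  · rw [cf, T_nil, if_pos rfl, mul_one] at h1
    exact hxw h1
  · intro v hv hne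
    rw [h0 v (mem_erase.2 ⟨hne, hv⟩), zero_mul]
  · intro h2
    exact absurd hw h2

end Pool.Agent.Y93.ST
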