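import Pool.Agent.Y760.ST.Stm

/-!
Project ST: the size of the primitive relation (helper93).
-/

set_option autoImplicit false

namespace Pool.Agent.Y93.ST

section alg

variable {K : Type} [Field K] {m : ℕ}

/-- boxes of exponents -/
abbrev Bx (m : ℕ) (b : Fin m → ℕ) : Type := ∀ i : Fin m, Fin (b i + 1)

/-- the exponents as finitely supported functions -/
noncomputable def ex {b : Fin m → ℕ} (μ : Bx m b) : Fin m →₀ ℕ :=
  Finsupp.equivFunOnFinite.symm fun i => (μ i : ℕ)

lemma ex_apply {b : Fin m → ℕ} (μ : Bx m b) (i : Fin m) : ex μ i = μ i := rfl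

lemma ex_inj {b : Fin m → ℕ} : Function.Injective (ex (m := m) (b := b)) := by
  intro g h e
  funext i
  have h1 := DFunLike.congr_fun e i
  rw [ex_apply, ex_apply] at h1
  exact Fin.ext h1

lemma ex_le {b : Fin m → ℕ} (μ : Bx m b) (i : Fin m) : ex μ i ≤ b i := Nat.lt_succ_iff.1 (μ i).2

/-- the point of the box with given coordinates -/
def ofx (b : Fin m → ℕ) (g : Fin m →₀ ℕ) (h : ∀ i, g i ≤ b i) : Bx m b :=
  fun i => ⟨g i, Nat.lt_succ_of_le (h i)⟩

lemma ex_ofx (b : Fin m → ℕ) (g : Fin m →₀ ℕ) (h : ∀ i, g i ≤ b i) : ex (ofx b g h) = g := by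
  ext i
  rfl

/-- the polynomial with given coefficients -/
noncomputable def pol (b : Fin m → ℕ) (c : Bx m b → K) : MvPolynomial (Fin m) K :=
  ∑ μ, MvPolynomial.monomial (ex μ) (c μ)

lemma coeff_pol (b : Fin m → ℕ) (c : Bx m b → K) (μ : Bx m b) : (pol b c).coeff (ex μ) = c μ := by
  classical
  unfold pol
  rw [MvPolynomial.coeff_sum, Finset.sum_eq_single μ]
  · rw [MvPolynomial.coeff_monomial, if_pos rfl]
  · intro j _ hj
    rw [MvPolynomial.coeff_monomial, if_neg]
    exact fun h => hj (ex_inj h)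
  · intro h
    exact absurd (Finset.mem_univ μ) h

lemma pol_bd (b : Fin m → ℕ) (c : Bx m b → K) {g : Fin m →₀ ℕ} (h : (pol b c).coeff g ≠ 0) :
    ∀ i, g i ≤ b i := by
  classical
  unfold pol at h
  rw [MvPolynomial.coeff_sum] at h
  obtain ⟨μ, -, h1⟩ := Finset.exists_ne_zero_of_sum_ne_zero h
  rw [MvPolynomial.coeff_monomial] at h1
  have h2 : ex μ = g := by
    by_contra h3
    exact h1 (if_neg h3)
  rw [← h2]
  exact ex_le μ

lemma pol_eq (b : Fin m → ℕ) (P : MvPolynomial (Fin m) K)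
    (h : ∀ g, P.coeff g ≠ 0 → ∀ i, g i ≤ b i) : P = pol b fun μ => P.coeff (ex μ) := by
  refine MvPolynomial.ext _ _ fun g => ?_
  by_cases hg : ∀ i, g i ≤ b i
  · have h1 := coeff_pol b (fun μ => P.coeff (ex μ)) (ofx b g hg)
    rw [ex_ofx] at h1
    exact h1.symm
  · have h1 : P.coeff g = 0 := by
      by_contra h2
      exact hg (h g h2)
    have h2 : (pol b fun μ => P.coeff (ex μ)).coeff g = 0 := by
      by_contra h2
      exact hg (pol_bd b _ h2)
    rw [h1, h2]

lemma bd_of_deg (b : Fin m → ℕ) (P : MvPolynomial (Fin m) K) (h : ∀ i, P.degreeOf i ≤ b i) :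
    ∀ g, P.coeff g ≠ 0 → ∀ i, g i ≤ b i := fun _ hg i =>
  (MvPolynomial.monomial_le_degreeOf i (MvPolynomial.mem_support_iff.2 hg)).trans (h i)

lemma deg_pol (b : Fin m → ℕ) (c : Bx m b → K) (i : Fin m) : (pol b c).degreeOf i ≤ b i := by
  rw [MvPolynomial.degreeOf_le_iff]
  intro g hg
  exact pol_bd b c (MvPolynomial.mem_support_iff.1 hg) i

variable (κ H : (Fin m →₀ ℕ) → ℕ)

/-- leading exponents -/
def Ld (P : MvPolynomial (Fin m) K) (e : Fin m →₀ ℕ) : Prop :=
  P.coeff e ≠ 0 ∧ ∀ a, P.coeff a ≠ 0 → κ e ≤ κ a ∧ (κ a = κ e → H a ≤ H e)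

lemma exists_ld {P : MvPolynomial (Fin m) K} (hP : P ≠ 0) : ∃ e, Ld κ H P e := by
  classical
  have h0 : P.support.Nonempty := by
    rw [Finset.nonempty_iff_ne_empty, Ne, MvPolynomial.support_eq_empty]
    exact hP
  obtain ⟨e0, he0, hm⟩ := Finset.exists_min_image P.support κ h0
  obtain ⟨e, he, hM⟩ := Finset.exists_max_image (P.support.filter fun a => κ a = κ e0) H
    ⟨e0, Finset.mem_filter.2 ⟨he0, rfl⟩⟩
  rw [Finset.mem_filter] at he
  refine ⟨e, MvPolynomial.mem_support_iff.1 he.1, fun a ha => ⟨?_, fun h => ?_⟩⟩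
  · rw [he.2]
    exact hm a (MvPolynomial.mem_support_iff.2 ha)
  · exact hM a (Finset.mem_filter.2 ⟨MvPolynomial.mem_support_iff.2 ha, h.trans he.2⟩)

variable {κ H}

lemma coeff_ld (hκ : ∀ a b, κ (a + b) = κ a + κ b) (hH : ∀ a b, H (a + b) = H a * H b)
    (hpos : ∀ a, 0 < H a) (hinj : Function.Injective H) {P Q : MvPolynomial (Fin m) K}
    {e g : Fin m →₀ ℕ} (hP : Ld κ H P e) (hQ : Ld κ H Q g) :
    (P * Q).coeff (e + g) = P.coeff e * Q.coeff g := by
  classical
  rw [MvPolynomial.coeff_mul, Finset.sum_eq_single (e, g)]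
  · rintro ⟨a, b⟩ hab hne
    by_contra h
    have ha : P.coeff a ≠ 0 := left_ne_zero_of_mul h
    have hb : Q.coeff b ≠ 0 := right_ne_zero_of_mul h
    rw [Finset.HasAntidiagonal.mem_antidiagonal] at hab
    obtain ⟨a1, a2⟩ := hP.2 a ha
    obtain ⟨b1, b2⟩ := hQ.2 b hb
    have h1 : κ a + κ b = κ e + κ g := by rw [← hκ, ← hκ]; exact congrArg κ hab
    have h2 : H a * H b = H e * H g := by rw [← hH, ← hH]; exact congrArg H hab
    have h3 := a2 (by omega)
    have h4 := b2 (by omega)
    have h5 : H a = H e := by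
      refine le_antisymm h3 ?_
      by_contra h6
      have h7 : H a < H e := not_le.1 h6
      have h8 : H a * H b < H e * H g := Nat.mul_lt_mul_of_lt_of_le h7 h4 (hpos g)
      omega
    have h6 := hinj h5
    subst h6
    exact hne (Prod.ext rfl (add_left_cancel hab))
  · intro h
    rw [Finset.HasAntidiagonal.mem_antidiagonal] at h
    exact absurd rfl h

/-- a monomial free of a given variable -/
lemma exists_free {J : Type} {A : J → MvPolynomial (Fin m) K}
    (h : ∀ d, (∀ j, d ∣ A j) → IsUnit d) (i : Fin m) :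
    ∃ (j : J) (g : Fin m →₀ ℕ), (A j).coeff g ≠ 0 ∧ g i = 0 := by
  by_contra hcon
  push Not at hcon
  have h3 := h (MvPolynomial.X i) fun j => by
    rw [MvPolynomial.X_dvd_iff_modMonomial_eq_zero]
    refine MvPolynomial.ext _ _ fun g => ?_
    rw [MvPolynomial.coeff_zero]
    by_cases hg : Finsupp.single i 1 ≤ g
    · exact MvPolynomial.coeff_modMonomial_of_le _ hg
    · rw [MvPolynomial.coeff_modMonomial_of_not_le _ hg]
      by_contra h3
      refine hg (Finsupp.single_le_iff.2 ?_)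
      exact Nat.one_le_iff_ne_zero.2 (hcon j g h3)
  have h4 := h3.map (MvPolynomial.eval (0 : Fin m → K))
  rw [MvPolynomial.eval_X] at h4
  exact not_isUnit_zero h4

/-- the largest degrees -/
lemma exists_deg {J : Type} [Fintype J] (A : J → MvPolynomial (Fin m) K) (j0 : J) (h0 : A j0 ≠ 0)
    (i : Fin m) : ∃ j, A j ≠ 0 ∧ ∀ j', (A j').degreeOf i ≤ (A j).degreeOf i := by
  classical
  obtain ⟨j, hj, hm⟩ := Finset.exists_max_image (Finset.univ.filter fun j => A j ≠ 0)
    (fun j => (A j).degreeOf i) ⟨j0, Finset.mem_filter.2 ⟨Finset.mem_univ _, h0⟩⟩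
  refine ⟨j, (Finset.mem_filter.1 hj).2, fun j' => ?_⟩
  by_cases h : A j' = 0
  · rw [h, MvPolynomial.degreeOf_zero]
    exact Nat.zero_le _
  · exact hm j' (Finset.mem_filter.2 ⟨Finset.mem_univ _, h⟩)

end alg

open Filter Topology in
/-- the limit -/
lemma limit (m : ℕ) (d : Fin m → ℕ) (a c s : ℝ)
    (h : ∀ N : ℕ, ((N : ℝ) + 1) ^ m * a ≤ c * (∏ i : Fin m, ((N : ℝ) + d i + 1)) * s) :
    a ≤ c * s := by
  have h1 : Tendsto (fun N : ℕ => ((N : ℝ) + 1)⁻¹) atTop (𝓝 0) :=
    tendsto_inv_atTop_zero.comp (tendsto_atTop_add_const_right _ _ tendsto_natCast_atTop_atTop)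
  have h2 : ∀ i : Fin m, Tendsto (fun N : ℕ => (1 + (d i : ℝ) * ((N : ℝ) + 1)⁻¹)) atTop
      (𝓝 (1 + (d i : ℝ) * 0)) := fun i => (h1.const_mul (d i : ℝ)).const_add 1
  have h3 : Tendsto (fun N : ℕ => ∏ i : Fin m, (1 + (d i : ℝ) * ((N : ℝ) + 1)⁻¹)) atTop
      (𝓝 (∏ i : Fin m, (1 + (d i : ℝ) * 0))) := tendsto_finsetProd _ fun i _ => h2 i
  have h4 : (∏ i : Fin m, (1 + (d i : ℝ) * 0)) = 1 :=
    Finset.prod_eq_one fun i _ => by rw [mul_zero, add_zero]
  rw [h4] at h3
  have h5 := (h3.const_mul c).mul_const s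
  rw [mul_one] at h5
  refine ge_of_tendsto' h5 fun N => ?_
  have hN : (0 : ℝ) < (N : ℝ) + 1 := by positivity
  have hNm : (0 : ℝ) < ((N : ℝ) + 1) ^ m := pow_pos hN m
  have h6 : (∏ i : Fin m, ((N : ℝ) + d i + 1)) =
      ((N : ℝ) + 1) ^ m * ∏ i : Fin m, (1 + (d i : ℝ) * ((N : ℝ) + 1)⁻¹) := by
    have h7 : ((N : ℝ) + 1) ^ m = ∏ _i : Fin m, ((N : ℝ) + 1) := by
      rw [Finset.prod_const, Finset.card_univ, Fintype.card_fin]
    rw [h7, ← Finset.prod_mul_distrib]
    refine Finset.prod_congr rfl fun i _ => ?_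
    field_simp
    ring
  have h8 := h N
  rw [h6] at h8
  have h9 : ((N : ℝ) + 1) ^ m * a ≤ ((N : ℝ) + 1) ^ m *
      (c * (∏ i : Fin m, (1 + (d i : ℝ) * ((N : ℝ) + 1)⁻¹)) * s) := by
    calc _ ≤ _ := h8
      _ = _ := by ring
  exact le_of_mul_le_mul_left h9 hNm


/-- the range of an injective map and its complement -/
lemma exists_E {G I : Type} [Fintype G] [Fintype I] (X : I → G) (hX : Function.Injective X) (D : ℕ)
    (hD : Fintype.card G = D + Fintype.card I) :
    ∃ E : Fin D ⊕ I ≃ G, ∀ ν, E (Sum.inr ν) = X ν := by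
  classical
  have h1 : Fintype.card (↥(Set.range X)ᶜ) = D := by
    have h2 := Fintype.card_congr (Equiv.Set.sumCompl (Set.range X))
    rw [Fintype.card_sum, hD, ← Fintype.card_congr (Equiv.ofInjective X hX)] at h2
    omega
  have e1 : Fin D ≃ ↥(Set.range X)ᶜ := (Fintype.equivFinOfCardEq h1).symm
  exact ⟨(Equiv.sumComm _ _).trans (((Equiv.ofInjective X hX).sumCongr e1).trans
    (Equiv.Set.sumCompl (Set.range X))), fun ν => rfl⟩

section main

open Filter Topology Pool.Agent.TH932.Abs Pool.Agent.TH932.Germs Pool.Agent.TH932.Chi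
open Pool.Agent.TH796.AL Pool.Agent.Y760.ZG Pool.Agent.Y760.RT Pool.Agent.Y760.ST

lemma hv_add {m : ℕ} (a b : Fin m →₀ ℕ) : hv (a + b) = hv a * hv b := by
  unfold hv
  rw [← Finset.prod_mul_distrib]
  refine Finset.prod_congr rfl fun i _ => ?_
  rw [Finsupp.add_apply, pow_add]

lemma hv_fac {m : ℕ} (g : Fin m →₀ ℕ) (i : Fin m) : (hv g).factorization (pr i) = g i := by
  classical
  unfold hv
  rw [Nat.factorization_prod fun (j : Fin m) _ => pow_ne_zero (g j) (pr_prime (j : ℕ)).ne_zero,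
    Finsupp.finsetSum_apply, Finset.sum_eq_single i]
  · rw [Nat.Prime.factorization_pow (pr_prime i), Finsupp.single_eq_same]
  · intro j _ hj
    rw [Nat.Prime.factorization_pow (pr_prime j), Finsupp.single_apply, if_neg]
    exact fun h => hj (Fin.ext (pr_inj h))
  · intro h
    exact absurd (Finset.mem_univ i) h

lemma hv_inj {m : ℕ} : Function.Injective (hv (m := m)) := by
  intro a b h
  ext i
  rw [← hv_fac a i, ← hv_fac b i, h]

/-- the first key at a place -/
def kp {m : ℕ} : Option (Fin m) → (Fin m →₀ ℕ) → ℕ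
  | none, _ => 0
  | some i, g => g i

lemma kp_add {m : ℕ} (v : Option (Fin m)) (a b : Fin m →₀ ℕ) : kp v (a + b) = kp v a + kp v b := by
  cases v <;> rfl

lemma cf_add {m : ℕ} (a b : Fin m →₀ ℕ) : cf (a + b) = cf a + cf b := by
  funext i
  show ((a i + b i : ℕ) : ℝ) = (a i : ℝ) + b i
  push_cast
  rfl

variable {m : ℕ} {L : ℕ → ℝ} (hL : Tendsto L atTop atTop)

lemma phi_pol (b : Fin m → ℕ) (c : Bx m b → KK L hL) :
    phi (bs m) hL (pol b c) = ∑ μ, (c μ : GG) * ch (bs m) hL (cf (ex μ)) := by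
  unfold pol
  rw [map_sum]
  exact Finset.sum_congr rfl fun μ _ => phi_monomial (bs m) hL _ _

lemma pol_add (b : Fin m → ℕ) (c c' : Bx m b → KK L hL) : pol b (c + c') = pol b c + pol b c' := by
  unfold pol
  rw [← Finset.sum_add_distrib]
  refine Finset.sum_congr rfl fun μ _ => ?_
  rw [Pi.add_apply, map_add]

lemma pol_smul (b : Fin m → ℕ) (r : KK L hL) (c : Bx m b → KK L hL) :
    pol b (r • c) = r • pol b c := by
  unfold pol
  rw [Finset.smul_sum]
  refine Finset.sum_congr rfl fun μ _ => ?_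
  rw [Pi.smul_apply, MvPolynomial.smul_monomial]

/-- coefficients of the multiples of a polynomial -/
noncomputable def TT (b : Fin m → ℕ) (A : MvPolynomial (Fin m) (KK L hL)) (γ : Fin m →₀ ℕ) :
    (Bx m b → KK L hL) →ₗ[KK L hL] (Bx m b → KK L hL) where
  toFun f := fun ν => (pol b f * A).coeff (ex ν + γ)
  map_add' f f' := by
    funext ν
    rw [pol_add, add_mul, MvPolynomial.coeff_add]
    rfl
  map_smul' r f := by
    funext ν
    rw [pol_smul, smul_mul_assoc, MvPolynomial.coeff_smul]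
    rfl

lemma TT_surj (b : Fin m → ℕ) (A : MvPolynomial (Fin m) (KK L hL)) (γ : Fin m →₀ ℕ)
    (v : Option (Fin m)) (h : Ld (kp v) hv A γ) : Function.Surjective (TT hL b A γ) := by
  refine LinearMap.injective_iff_surjective.1 ((injective_iff_map_eq_zero _).2 fun f hf => ?_)
  by_contra hne
  have h0 : pol b f ≠ 0 := by
    intro h1
    apply hne
    funext μ
    rw [← coeff_pol b f μ, h1, MvPolynomial.coeff_zero]
    rfl
  obtain ⟨e, he⟩ := exists_ld (kp v) hv h0
  have h1 := coeff_ld (kp_add v) hv_add hv_pos hv_inj he h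
  have h2 : (pol b f * A).coeff (ex (ofx b e (pol_bd b f he.1)) + γ) = 0 :=
    congrFun hf (ofx b e (pol_bd b f he.1))
  rw [ex_ofx, h1] at h2
  exact mul_ne_zero he.1 h.1 h2

/-- **the size of the primitive relation** -/
theorem rs : RsStmt := by
  classical
  intro m L hL J _ q A j0 g s hrel hall hprim hfin hS hinf hg
  have hA0 : A j0 ≠ 0 := by
    intro h
    rw [h, MvPolynomial.coeff_zero] at hg
    exact hg rfl
  -- the leading exponents at the places
  obtain ⟨γ0, hγ0⟩ := exists_ld (kp none) hv hA0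
  have hgγ : hv g ≤ hv γ0 := (hγ0.2 g hg).2 rfl
  have hfr : ∀ i : Fin m, ∃ (j : J) (γ : Fin m →₀ ℕ), Ld (kp (some i)) hv (A j) γ ∧ γ i = 0 := by
    intro i
    obtain ⟨j, g', hg', hi⟩ := exists_free hprim i
    have hj : A j ≠ 0 := by
      intro h
      rw [h, MvPolynomial.coeff_zero] at hg'
      exact hg' rfl
    obtain ⟨γ, hγ⟩ := exists_ld (kp (some i)) hv hj
    refine ⟨j, γ, hγ, ?_⟩
    have h1 : γ i ≤ g' i := (hγ.2 g' hg').1
    omega
  choose jf γf hf1 hf2 using hfr
  obtain ⟨jj, hjj0, hjj⟩ : ∃ jj : Option (Fin m) → J, jj none = j0 ∧ ∀ i, jj (some i) = jf i :=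
    ⟨fun v => v.elim j0 jf, rfl, fun _ => rfl⟩
  obtain ⟨γ, hγn, hγs⟩ : ∃ γ : Option (Fin m) → (Fin m →₀ ℕ), γ none = γ0 ∧
      ∀ i, γ (some i) = γf i := ⟨fun v => v.elim γ0 γf, rfl, fun _ => rfl⟩
  have hLd : ∀ v, Ld (kp v) hv (A (jj v)) (γ v) := by
    intro v
    cases v with
    | none => rw [hjj0, hγn]; exact hγ0
    | some i => rw [hjj, hγs]; exact hf1 i
  -- the degrees
  choose jm hjm1 hjm2 using fun i => exists_deg A j0 hA0 i
  obtain ⟨d, hd⟩ : ∃ d : Fin m → ℕ, ∀ i, d i = (A (jm i)).degreeOf i := ⟨_, fun _ => rfl⟩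
  have hγd : ∀ v i, γ v i ≤ d i := by
    intro v i
    rw [hd]
    exact (MvPolynomial.monomial_le_degreeOf i (MvPolynomial.mem_support_iff.2 (hLd v).1)).trans
      (hjm2 i (jj v))
  obtain ⟨t, ht0, ht⟩ : ∃ t : Option (Fin m) → ℝ, t none = -s ∧ ∀ i, t (some i) = 0 :=
    ⟨fun v => v.elim (-s) (fun _ => 0), rfl, fun _ => rfl⟩
  have htsum : ∑ v, t v = -s := by
    rw [Fintype.sum_option, ht0, Finset.sum_eq_zero fun i _ => ht i, add_zero]
  have hqt : ∀ v j, q j ∈ Sv (bs m) L v (t v) := by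
    intro v j
    cases v with
    | none => rw [ht0]; exact hinf j
    | some i => rw [ht]; exact hfin i j
  have hγsum : ∑ v, lv (bs m) v (cf (γ v)) = -Real.log (hv γ0) := by
    rw [Fintype.sum_option, hγn, lv_cf, Finset.sum_eq_zero, add_zero]
    intro i _
    show cf (γ (some i)) i * _ = 0
    have h1 : cf (γ (some i)) i = 0 := by
      show ((γ (some i) i : ℕ) : ℝ) = 0
      rw [hγs, hf2, Nat.cast_zero]
    rw [h1, zero_mul]
  -- the limit
  have hlim : Real.log (hv γ0) + s ≤ (Fintype.card J : ℝ) * s := limit m d _ _ s fun N => by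
    obtain ⟨b, hb⟩ : ∃ b : Fin m → ℕ, ∀ i, b i = N + d i := ⟨_, fun _ => rfl⟩
    obtain ⟨x, hx⟩ : ∃ x : J × Bx m b → GG, ∀ g, x g = ch (bs m) hL (cf (ex g.2)) * q g.1 :=
      ⟨_, fun _ => rfl⟩
    have hXb : ∀ (v : Option (Fin m)) (ν : Bx m fun _ => N) (i : Fin m), (ex ν + γ v) i ≤ b i := by
      intro v ν i
      rw [Finsupp.add_apply, hb]
      exact add_le_add (ex_le ν i) (hγd v i)
    obtain ⟨X, hX⟩ : ∃ X : Option (Fin m) → (Bx m fun _ => N) → J × Bx m b,
        ∀ v ν, X v ν = (jj v, ofx b (ex ν + γ v) (hXb v ν)) := ⟨_, fun _ _ => rfl⟩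
    have hXex : ∀ v ν, ex (X v ν).2 = ex ν + γ v := by
      intro v ν
      rw [hX]
      exact ex_ofx b _ (hXb v ν)
    have hXj : ∀ v ν, (X v ν).1 = jj v := by
      intro v ν
      rw [hX]
    have hXinj : ∀ v, Function.Injective (X v) := by
      intro v ν ν' h
      have h1 := hXex v ν
      rw [h, hXex] at h1
      exact ex_inj (add_right_cancel h1).symm
    -- relations
    have hsumx : ∀ c : J × Bx m b → KK L hL, ∑ g, (c g : GG) * x g =
        ∑ j, phi (bs m) hL (pol b fun μ => c (j, μ)) * q j := by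
      intro c
      rw [Fintype.sum_prod_type]
      refine Finset.sum_congr rfl fun j _ => ?_
      rw [phi_pol, Finset.sum_mul]
      refine Finset.sum_congr rfl fun μ _ => ?_
      rw [hx, mul_assoc]
    have hR : ∀ c : J × Bx m b → KK L hL, ∑ g, (c g : GG) * x g = 0 →
        ∃ f, (∀ j, (pol b fun μ => c (j, μ)) = f * A j) ∧
          ∀ g, MvPolynomial.coeff g f ≠ 0 → ∀ i, g i ≤ N := by
      intro c hc
      rw [hsumx] at hc
      obtain ⟨f, hf⟩ := hall _ hc
      refine ⟨f, hf, ?_⟩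
      by_cases hf0 : f = 0
      · intro g hg
        rw [hf0, MvPolynomial.coeff_zero] at hg
        exact absurd rfl hg
      refine bd_of_deg (fun _ => N) f fun i => ?_
      have h1 := deg_pol b (fun μ => c (jm i, μ)) i
      rw [hf, MvPolynomial.degreeOf_mul_eq hf0 (hjm1 i), hb, hd] at h1
      omega
    have hI : ∀ v (c : J × Bx m b → KK L hL), ∑ g, (c g : GG) * x g = 0 →
        (∀ ν, c (X v ν) = 0) → ∀ g, c g = 0 := by
      intro v c hc hcX
      obtain ⟨f, hf, hfN⟩ := hR c hc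
      have hf0 : f = 0 := by
        by_contra hne
        obtain ⟨e, he⟩ := exists_ld (kp v) hv hne
        have h1 := coeff_ld (kp_add v) hv_add hv_pos hv_inj he (hLd v)
        have h2 : (f * A (jj v)).coeff (e + γ v) = 0 := by
          have h3 := coeff_pol b (fun μ => c (jj v, μ)) (X v (ofx _ e (hfN e he.1))).2
          rw [hf, hXex, ex_ofx] at h3
          rw [h3]
          have h4 := hcX (ofx _ e (hfN e he.1))
          have h5 : X v (ofx _ e (hfN e he.1)) = (jj v, (X v (ofx _ e (hfN e he.1))).2) :=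
            Prod.ext (hXj _ _) rfl
          rw [h5] at h4
          exact h4
        rw [h2] at h1
        exact mul_ne_zero he.1 (hLd v).1 h1.symm
      rintro ⟨j, μ⟩
      have h1 := coeff_pol b (fun μ => c (j, μ)) μ
      rw [hf, hf0, zero_mul, MvPolynomial.coeff_zero] at h1
      exact h1.symm
    have hSp : ∀ g, ∃ c : J × Bx m b → KK L hL, (∀ ν, c (X none ν) = 0) ∧
        x g = ∑ g', (c g' : GG) * x g' := by
      intro g
      obtain ⟨f, hf⟩ := TT_surj hL (fun _ => N) (A j0) γ0 none hγ0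
        (fun ν => (Pi.single g 1 : J × Bx m b → KK L hL) (X none ν))
      obtain ⟨c', hc'⟩ : ∃ c' : J × Bx m b → KK L hL, ∀ g,
        c' g = (pol (fun _ => N) f * A g.1).coeff (ex g.2) := ⟨_, fun _ => rfl⟩
      have h1 : ∑ g', (c' g' : GG) * x g' = 0 := by
        rw [hsumx]
        have h2 : ∀ j, (pol b fun μ => c' (j, μ)) = pol (fun _ => N) f * A j := by
          intro j
          have h3 := pol_eq b (pol (fun _ => N) f * A j) (bd_of_deg b _ fun i => by
            refine (MvPolynomial.degreeOf_mul_le i _ _).trans ?_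
            rw [hb, hd]
            exact add_le_add (deg_pol (fun _ => N) f i) (hjm2 i j))
          rw [h3]
          congr 1
          funext μ
          exact hc' (j, μ)
        have h4 : ∀ j, phi (bs m) hL (pol b fun μ => c' (j, μ)) * q j =
            phi (bs m) hL (pol (fun _ => N) f) * (phi (bs m) hL (A j) * q j) := by
          intro j
          rw [h2, map_mul, mul_assoc]
        rw [Finset.sum_congr rfl fun j _ => h4 j, ← Finset.mul_sum, hrel, mul_zero]
      refine ⟨fun g' => (Pi.single g 1 : J × Bx m b → KK L hL) g' - c' g', fun ν => ?_, ?_⟩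
      · have h2 := congrFun hf ν
        have h3 : c' (X none ν) = TT hL (fun _ => N) (A j0) γ0 f ν := by
          rw [hc', hXex, hXj, hjj0, hγn]
          rfl
        show (Pi.single g 1 : J × Bx m b → KK L hL) (X none ν) - c' (X none ν) = 0
        rw [h3, h2, sub_self]
      · have h2 : ∀ g', (((Pi.single g 1 : J × Bx m b → KK L hL) g' - c' g' : KK L hL) : GG) *
            x g' = (if g' = g then x g' else 0) - (c' g' : GG) * x g' := by
          intro g'
          by_cases h : g' = g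
          · rw [if_pos h, h, Pi.single_eq_same, sub_eq_add_neg]
            push_cast
            ring
          · rw [if_neg h, Pi.single_eq_of_ne h, zero_sub, zero_sub]
            push_cast
            ring
        rw [Finset.sum_congr rfl fun g' _ => h2 g', Finset.sum_sub_distrib, h1, sub_zero,
          Finset.sum_ite_eq', if_pos (Finset.mem_univ g)]
    -- the bases
    have hcle : Fintype.card (Bx m fun _ => N) ≤ Fintype.card (J × Bx m b) :=
      Fintype.card_le_of_injective _ (hXinj none)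
    obtain ⟨D, hD⟩ := Nat.exists_eq_add_of_le' hcle
    choose E hE using fun v => exists_E (X v) (hXinj v) D hD
    have hsplit : ∀ (v : Option (Fin m)) (F : J × Bx m b → GG),
        ∑ g, F g = ∑ i, F (E v (Sum.inl i)) + ∑ ν, F (X v ν) := by
      intro v F
      rw [← Equiv.sum_comp (E v) F, Fintype.sum_sum_type]
      congr 1
      exact Finset.sum_congr rfl fun ν _ => by rw [hE]
    have hsplitR : ∀ (v : Option (Fin m)) (F : J × Bx m b → ℝ),
        ∑ g, F g = ∑ i, F (E v (Sum.inl i)) + ∑ ν, F (X v ν) := by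
      intro v F
      rw [← Equiv.sum_comp (E v) F, Fintype.sum_sum_type]
      congr 1
      exact Finset.sum_congr rfl fun ν _ => by rw [hE]
    have hmain := movq_thm m (bs m) L hL (Fin D) inferInstance (fun v i => x (E v (Sum.inl i)))
      (fun v i => lv (bs m) v (cf (ex (E v (Sum.inl i)).2)) + t v)
      (fun v c hc => by
        obtain ⟨cc, hcc⟩ : ∃ cc : J × Bx m b → KK L hL,
          ∀ g, cc g = Sum.elim c (fun _ => 0) ((E v).symm g) := ⟨_, fun _ => rfl⟩
        have h1 : ∀ i, cc (E v (Sum.inl i)) = c i := by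
          intro i
          rw [hcc, Equiv.symm_apply_apply, Sum.elim_inl]
        have h2 : ∀ ν, cc (X v ν) = 0 := by
          intro ν
          rw [← hE, hcc, Equiv.symm_apply_apply, Sum.elim_inr]
        have h3 := hI v cc (by
          rw [hsplit v]
          have h4 : ∑ ν, (cc (X v ν) : GG) * x (X v ν) = 0 := Finset.sum_eq_zero fun ν _ => by
            rw [h2, ZeroMemClass.coe_zero, zero_mul]
          rw [h4, add_zero, ← hc]
          exact Finset.sum_congr rfl fun i _ => by rw [h1]) h2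
        intro i
        rw [← h1, h3])
      (fun v i => by
        obtain ⟨c, hc0, hc⟩ := hSp (E v (Sum.inl i))
        refine ⟨fun j => c (E none (Sum.inl j)), ?_⟩
        show x (E v (Sum.inl i)) = _
        rw [hc, hsplit none]
        have h4 : ∑ ν, (c (X none ν) : GG) * x (X none ν) = 0 := Finset.sum_eq_zero fun ν _ => by
          rw [hc0, ZeroMemClass.coe_zero, zero_mul]
        rw [h4, add_zero])
      (fun v i => by
        show x (E v (Sum.inl i)) ∈ _
        rw [hx]
        exact (filt_v hL v).mul_mem (ch_mem hL v _) (hqt v _))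
      (fun i => by
        show Sint (bs m) L (x (E none (Sum.inl i)))
        rw [hx]
        exact Sint.mul hL (ch_sint hL _) (hS _))
    have hW : ∀ v, ∑ i, (lv (bs m) v (cf (ex (E v (Sum.inl i)).2)) + t v) =
        ∑ g : J × Bx m b, (lv (bs m) v (cf (ex g.2)) + t v) -
          ∑ ν : Bx m fun _ => N, ((lv (bs m) v (cf (ex ν)) + lv (bs m) v (cf (γ v))) + t v) := by
      intro v
      rw [hsplitR v (fun g => lv (bs m) v (cf (ex g.2)) + t v)]
      have h1 : ∀ ν, lv (bs m) v (cf (ex (X v ν).2)) + t v =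
          (lv (bs m) v (cf (ex ν)) + lv (bs m) v (cf (γ v))) + t v := by
        intro ν
        rw [hXex, cf_add, lv_add]
      rw [Finset.sum_congr rfl fun ν _ => h1 ν, add_sub_cancel_right]
    rw [Finset.sum_congr rfl fun v _ => hW v, Finset.sum_sub_distrib, Finset.sum_comm,
      Finset.sum_comm (s := Finset.univ) (t := (Finset.univ : Finset (Bx m fun _ => N)))] at hmain
    have e1 : ∀ g : J × Bx m b, ∑ v, (lv (bs m) v (cf (ex g.2)) + t v) = -s := by
      intro g
      rw [Finset.sum_add_distrib, lv_sum, htsum, zero_add]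
    have e2 : ∀ ν : Bx m fun _ => N, ∑ v, ((lv (bs m) v (cf (ex ν)) +
        lv (bs m) v (cf (γ v))) + t v) = -(Real.log (hv γ0) + s) := by
      intro ν
      rw [Finset.sum_add_distrib, Finset.sum_add_distrib, lv_sum, htsum, hγsum]
      ring
    rw [Finset.sum_congr rfl fun g _ => e1 g, Finset.sum_congr rfl fun ν _ => e2 ν,
      Finset.sum_const, Finset.sum_const, nsmul_eq_mul, nsmul_eq_mul, Finset.card_univ,
      Finset.card_univ] at hmain
    have c1 : (Fintype.card (Bx m fun _ => N) : ℝ) = ((N : ℝ) + 1) ^ m := by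
      rw [Fintype.card_pi, Finset.prod_const, Fintype.card_fin, Finset.card_univ, Fintype.card_fin]
      push_cast
      rfl
    have c2 : (Fintype.card (J × Bx m b) : ℝ) =
        (Fintype.card J : ℝ) * ∏ i : Fin m, ((N : ℝ) + d i + 1) := by
      rw [Fintype.card_prod, Fintype.card_pi]
      push_cast
      congr 1
      refine Finset.prod_congr rfl fun i _ => ?_
      rw [Fintype.card_fin, hb]
      push_cast
      rfl
    rw [c1, c2] at hmain
    linarith only [hmain]
  have hlog : Real.log (hv g) ≤ Real.log (hv γ0) :=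
    Real.log_le_log (by exact_mod_cast hv_pos g) (by exact_mod_cast hgγ)
  have h9 : ((Fintype.card J : ℝ) - 1) * s = (Fintype.card J : ℝ) * s - s := by ring
  rw [h9]
  linarith only [hlim, hlog]

end main

end Pool.Agent.Y93.ST
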